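import Pool.Agent.H99.EpiA
import Pool.Agent.H99.EpiSq

/-!
# Codistributive epigroup varieties have completely regular squares
-/

namespace Pool.Agent.Results.MP_e62dc3_al.SquareCR

open Pool.Agent.H99.Epi

/-- The square `S² = {ab : a, b ∈ S}` of a semigroup, a subsemigroup of `S`. -/
def square (S : Type) [Semigroup S] : Subsemigroup S where
  carrier := {s | ∃ a b : S, s = a * b}
  mul_mem' := by
    rintro s t _ _
    exact ⟨s, t, rfl⟩

/-- A semigroup is completely regular if each of its elements lies in a subgroup: for each `x`
there is an idempotent `e` such that `x` is in the maximal subgroup with identity `e`. -/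
def IsCompletelyRegular (T : Type) [Semigroup T] : Prop :=
  ∀ x : T, ∃ e : T, InMaxSubgroup e x

/-- If an epigroup variety `V` is a codistributive element of the lattice of all epigroup
varieties, then every epigroup in `V` has a completely regular square. -/
theorem result (V : EpigroupVariety) (hV : IsCodistributive V) (S : Type) [USemigroup S]
    (hS : V.mem S) : IsCompletelyRegular (square S) := by
  have hE := V.isEpigroup S hS
  have hC := stepA hV
  have hP := stepB hV hC
  have hD := stepB' hV hC
  have hN : ¬ V.mem N3 := fun h => stepC hV h hP hD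
  rintro ⟨s, hs⟩
  have hcr : CR s := by
    obtain ⟨a, b, rfl⟩ := hs
    exact stepD hC hP hD hN hS a b
  have h1 : s * (s * bar s) = s := hcr
  have hc := bar_comm hE s
  have hb := bar_mul_bar hE s
  have h2 : (s * bar s) * s = s := by rw [mul_assoc, ← hc, h1]
  have h3 : bar s * (s * bar s) = bar s := by rw [← mul_assoc, hb]
  have h4 : (s * bar s) * bar s = bar s := by rw [hc, hb]
  refine ⟨⟨s * bar s, s, bar s, rfl⟩, Subtype.ext (omega_idem hE s), Subtype.ext h2,
    Subtype.ext h1, ⟨bar s, bar s, s * bar s, h3.symm⟩, Subtype.ext h4, Subtype.ext h3,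
    Subtype.ext rfl, Subtype.ext hc.symm⟩

end Pool.Agent.Results.MP_e62dc3_al.SquareCR
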